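import Pool.Agent.Helper32.B4.St

/-!
# B4: module QC
-/

set_option autoImplicit false

open Set Filter Topology MeasureTheory
open scoped Interval

namespace Pool.Agent.Helper3.B4

open Pool.Agent.Helper32.B4 Pool.Agent.Helper32.DX Pool.Agent.Helper64.C3

private def Bd (f : ℝ → ℝ) : Prop := Measurable f ∧ ∃ C : ℝ, ∀ u, |f u| ≤ C

private lemma Bd.ii {f : ℝ → ℝ} (h : Bd f) (a b : ℝ) : IntervalIntegrable f volume a b := by
  obtain ⟨h1, C, hC⟩ := h
  exact ii_of_bdd h1.aestronglyMeasurable (C := C) fun u _ => by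
    rw [Real.norm_eq_abs]; exact hC u

private lemma Bd.mul {f g : ℝ → ℝ} (hf : Bd f) (hg : Bd g) : Bd (fun u => f u * g u) := by
  obtain ⟨h1, C, hC⟩ := hf
  obtain ⟨h2, D, hD⟩ := hg
  refine ⟨h1.mul h2, C * D, fun u => ?_⟩
  rw [abs_mul]
  exact mul_le_mul (hC u) (hD u) (abs_nonneg _) ((abs_nonneg _).trans (hC u))

private lemma Bd.add {f g : ℝ → ℝ} (hf : Bd f) (hg : Bd g) : Bd (fun u => f u + g u) := by
  obtain ⟨h1, C, hC⟩ := hf
  obtain ⟨h2, D, hD⟩ := hg
  exact ⟨h1.add h2, C + D, fun u => (abs_add_le _ _).trans (add_le_add (hC u) (hD u))⟩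

private lemma Bd.sub {f g : ℝ → ℝ} (hf : Bd f) (hg : Bd g) : Bd (fun u => f u - g u) := by
  obtain ⟨h1, C, hC⟩ := hf
  obtain ⟨h2, D, hD⟩ := hg
  exact ⟨h1.sub h2, C + D, fun u => (abs_sub _ _).trans (add_le_add (hC u) (hD u))⟩

private lemma cs {a b : ℝ} (hab : a ≤ b) {f g : ℝ → ℝ}
    (hf : IntervalIntegrable (fun u => f u ^ 2) volume a b)
    (hg : IntervalIntegrable (fun u => g u ^ 2) volume a b)
    (hfg : IntervalIntegrable (fun u => f u * g u) volume a b) :
    |∫ u in a..b, f u * g u| ≤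
      Real.sqrt (∫ u in a..b, f u ^ 2) * Real.sqrt (∫ u in a..b, g u ^ 2) := by
  set F := ∫ u in a..b, f u ^ 2 with hF
  set G := ∫ u in a..b, g u ^ 2 with hG
  set H := ∫ u in a..b, f u * g u with hH
  have F0 : 0 ≤ F := intervalIntegral.integral_nonneg hab fun u _ => sq_nonneg _
  have G0 : 0 ≤ G := intervalIntegral.integral_nonneg hab fun u _ => sq_nonneg _
  have key : ∀ x y : ℝ, 0 ≤ x ^ 2 * F - 2 * x * y * H + y ^ 2 * G := by
    intro x y
    have h1 : x ^ 2 * F - 2 * x * y * H + y ^ 2 * G = ∫ u in a..b, (x * f u - y * g u) ^ 2 := by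
      rw [hF, hG, hH, ← intervalIntegral.integral_const_mul, ← intervalIntegral.integral_const_mul,
        ← intervalIntegral.integral_const_mul, ← intervalIntegral.integral_sub
          (hf.const_mul _) (hfg.const_mul _), ← intervalIntegral.integral_add
          ((hf.const_mul _).sub (hfg.const_mul _)) (hg.const_mul _)]
      apply intervalIntegral.integral_congr
      intro u _
      ring
    rw [h1]
    exact intervalIntegral.integral_nonneg hab fun u _ => sq_nonneg _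
  have hsq : H ^ 2 ≤ F * G := by
    rcases G0.lt_or_eq with h | h
    · have := key G H
      have h2 : 0 ≤ G * (F * G - H ^ 2) := by nlinarith
      have := nonneg_of_mul_nonneg_right h2 h
      linarith
    · rw [← h, mul_zero]
      by_contra hcon
      push Not at hcon
      have hH0 : H ≠ 0 := by
        intro h0
        rw [h0] at hcon
        norm_num at hcon
      have := key 1 ((F + 1) / (2 * H))
      rw [← h] at this
      have h2 : 2 * 1 * ((F + 1) / (2 * H)) * H = F + 1 := by field_simp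
      rw [h2] at this
      linarith
  rw [← Real.sqrt_mul F0, ← Real.sqrt_sq_eq_abs]
  exact Real.sqrt_le_sqrt hsq

/-- the norm -/
private noncomputable def N (f : ℝ → ℝ) : ℝ := Real.sqrt (∫ u in (0:ℝ)..1, f u ^ 2)

private lemma N0 (f : ℝ → ℝ) : 0 ≤ N f := Real.sqrt_nonneg _

private lemma int_sq_nonneg (f : ℝ → ℝ) : 0 ≤ ∫ u in (0:ℝ)..1, f u ^ 2 :=
  intervalIntegral.integral_nonneg zero_le_one fun _ _ => sq_nonneg _

private lemma Bd.sq {f : ℝ → ℝ} (hf : Bd f) : Bd (fun u => f u ^ 2) := by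
  have := hf.mul hf
  simpa only [← pow_two] using this

private lemma cs01 {f g : ℝ → ℝ} (hf : Bd f) (hg : Bd g) :
    |∫ u in (0:ℝ)..1, f u * g u| ≤ N f * N g :=
  cs zero_le_one (hf.sq.ii 0 1) (hg.sq.ii 0 1) ((hf.mul hg).ii 0 1)

private lemma N_add {f g : ℝ → ℝ} (hf : Bd f) (hg : Bd g) : N (fun u => f u + g u) ≤ N f + N g := by
  have h1 : (∫ u in (0:ℝ)..1, (f u + g u) ^ 2) = (∫ u in (0:ℝ)..1, f u ^ 2) +
      2 * (∫ u in (0:ℝ)..1, f u * g u) + ∫ u in (0:ℝ)..1, g u ^ 2 := by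
    rw [← intervalIntegral.integral_const_mul, ← intervalIntegral.integral_add (hf.sq.ii 0 1)
      (((hf.mul hg).ii 0 1).const_mul _), ← intervalIntegral.integral_add
      ((hf.sq.ii 0 1).add (((hf.mul hg).ii 0 1).const_mul _)) (hg.sq.ii 0 1)]
    apply intervalIntegral.integral_congr
    intro u _
    ring
  have h2 := (abs_le.1 (cs01 hf hg)).2
  have h3 : N f ^ 2 = ∫ u in (0:ℝ)..1, f u ^ 2 := Real.sq_sqrt (int_sq_nonneg f)
  have h4 : N g ^ 2 = ∫ u in (0:ℝ)..1, g u ^ 2 := Real.sq_sqrt (int_sq_nonneg g)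
  unfold N at *
  rw [h1]
  apply Real.sqrt_le_iff.2
  refine ⟨by positivity, ?_⟩
  nlinarith

private lemma abs_int_le {f : ℝ → ℝ} (hf : Bd f) : |∫ u in (0:ℝ)..1, f u| ≤ N f := by
  have h1 : Bd (fun _ => (1 : ℝ)) := ⟨measurable_const, 1, fun _ => by norm_num⟩
  have := cs01 hf h1
  have h2 : N (fun _ => (1 : ℝ)) = 1 := by
    unfold N
    norm_num
  rw [h2] at this
  simpa using this

private lemma abs_int_u_le {f : ℝ → ℝ} (hf : Bd f) : |∫ u in (0:ℝ)..1, u * f u| ≤ N f := by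
  have hu2 : IntervalIntegrable (fun u : ℝ => u ^ 2) volume 0 1 :=
    (continuous_pow 2).intervalIntegrable 0 1
  obtain ⟨hm, C, hC⟩ := hf
  have hfu : IntervalIntegrable (fun u : ℝ => f u * u) volume 0 1 := by
    refine ii_of_bdd (hm.mul measurable_id).aestronglyMeasurable (C := C * 1) fun u hu => ?_
    rw [uIoc_of_le zero_le_one] at hu
    rw [Real.norm_eq_abs, abs_mul]
    have : |u| ≤ 1 := by rw [abs_of_pos hu.1]; exact hu.2
    exact mul_le_mul (hC u) this (abs_nonneg _) ((abs_nonneg _).trans (hC u))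
  have h := cs zero_le_one (f := f) (g := fun u => u) ((Bd.sq ⟨hm, C, hC⟩).ii 0 1) hu2 hfu
  have h1 : (∫ u in (0:ℝ)..1, u * f u) = ∫ u in (0:ℝ)..1, f u * u := by
    apply intervalIntegral.integral_congr
    intro u _
    ring
  have h2 : (∫ u in (0:ℝ)..1, (u : ℝ) ^ 2) = 1 / 3 := by
    rw [integral_pow]; norm_num
  rw [h1]
  refine h.trans ?_
  rw [h2]
  have h3 : Real.sqrt (1 / 3) ≤ 1 := by
    exact Real.sqrt_le_iff.2 ⟨zero_le_one, by norm_num⟩
  have := N0 f
  unfold N at *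
  nlinarith [Real.sqrt_nonneg (∫ u in (0:ℝ)..1, f u ^ 2)]

private lemma abs_tl_le {h : ℝ → ℝ} (hh : Bd h) {u : ℝ} (hu0 : 0 ≤ u) (hu1 : u ≤ 1) :
    |tl h u| ≤ N h := by
  have h1 : IntervalIntegrable (fun _ : ℝ => (1 : ℝ) ^ 2) volume u 1 :=
    intervalIntegrable_const
  have h2 : IntervalIntegrable (fun v : ℝ => h v * 1) volume u 1 := by
    simpa using hh.ii u 1
  have h3 := cs hu1 (f := h) (g := fun _ => (1 : ℝ)) (hh.sq.ii u 1) h1 h2
  have h4 : (∫ v in u..1, (1 : ℝ) ^ 2) = 1 - u := by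
    rw [one_pow, intervalIntegral.integral_const, smul_eq_mul, mul_one]
  have h5 : Real.sqrt (1 - u) ≤ 1 := by
    exact Real.sqrt_le_iff.2 ⟨zero_le_one, by linarith⟩
  have h6 : (∫ v in u..1, h v ^ 2) ≤ ∫ v in (0:ℝ)..1, h v ^ 2 := by
    rw [← intervalIntegral.integral_add_adjacent_intervals (hh.sq.ii 0 u) (hh.sq.ii u 1)]
    have : 0 ≤ ∫ v in (0:ℝ)..u, h v ^ 2 :=
      intervalIntegral.integral_nonneg hu0 fun _ _ => sq_nonneg _
    linarith
  rw [h4] at h3
  unfold tl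
  simp only [mul_one] at h3
  refine h3.trans ?_
  have h7 := Real.sqrt_le_sqrt h6
  unfold N
  have h8 := Real.sqrt_nonneg (∫ v in u..1, h v ^ 2)
  have h9 := Real.sqrt_nonneg (1 - u)
  nlinarith [Real.sqrt_nonneg (∫ v in (0:ℝ)..1, h v ^ 2)]

private lemma tl_bil {g h : ℝ → ℝ} (hg : Bd g) (hh : Bd h) :
    IntervalIntegrable (fun u => u * g u * tl h u) volume 0 1 ∧
    |∫ u in (0:ℝ)..1, u * g u * tl h u| ≤ N g * N h := by
  have hc : Continuous (tl h) := continuous_tl fun a b => hh.ii a b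
  obtain ⟨hm, C, hC⟩ := hg
  have hb : ∀ u ∈ Ι (0:ℝ) 1, |u * tl h u| ≤ N h := by
    intro u hu
    rw [uIoc_of_le zero_le_one] at hu
    rw [abs_mul, abs_of_pos hu.1]
    have := abs_tl_le hh hu.1.le hu.2
    have h1 := abs_nonneg (tl h u)
    nlinarith [hu.1, hu.2]
  have hi1 : IntervalIntegrable (fun u => g u * (u * tl h u)) volume 0 1 := by
    refine ii_of_bdd ((hm.mul (measurable_id.mul hc.measurable)).aestronglyMeasurable)
      (C := C * N h) fun u hu => ?_
    rw [Real.norm_eq_abs, abs_mul]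
    exact mul_le_mul (hC u) (hb u hu) (abs_nonneg _) ((abs_nonneg _).trans (hC u))
  have hi2 : IntervalIntegrable (fun u => (u * tl h u) ^ 2) volume 0 1 :=
    ((continuous_id.mul hc).pow 2).intervalIntegrable 0 1
  have e : (fun u => u * g u * tl h u) = fun u => g u * (u * tl h u) := by
    funext u; ring
  rw [e]
  refine ⟨hi1, ?_⟩
  have h1 := cs zero_le_one (f := g) (g := fun u => u * tl h u) ((Bd.sq ⟨hm, C, hC⟩).ii 0 1)
    hi2 hi1
  refine h1.trans ?_
  have h2 : (∫ u in (0:ℝ)..1, (u * tl h u) ^ 2) ≤ N h ^ 2 := by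
    have h3 : (∫ u in (0:ℝ)..1, (u * tl h u) ^ 2) ≤ ∫ _u in (0:ℝ)..1, N h ^ 2 := by
      apply intervalIntegral.integral_mono_on_of_le_Ioo zero_le_one hi2 intervalIntegrable_const
      intro u hu
      have := hb u (by rw [uIoc_of_le zero_le_one]; exact ⟨hu.1, hu.2.le⟩)
      rw [← sq_abs]
      exact pow_le_pow_left₀ (abs_nonneg _) this 2
    rw [intervalIntegral.integral_const, smul_eq_mul] at h3
    linarith
  have h3 : Real.sqrt (∫ u in (0:ℝ)..1, (u * tl h u) ^ 2) ≤ N h := by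
    rw [show N h = Real.sqrt (N h ^ 2) from (Real.sqrt_sq (N0 h)).symm]
    exact Real.sqrt_le_sqrt h2
  exact mul_le_mul_of_nonneg_left h3 (Real.sqrt_nonneg _)

theorem hQC : StQI → StQC := by
  intro hQI s s' hs hsC hs' hsC'
  have bs : Bd s := ⟨hs, hsC⟩
  have bs' : Bd s' := ⟨hs', hsC'⟩
  have bd : Bd (fun u => s u - s' u) := bs.sub bs'
  have ba : Bd (fun u => s u + s' u) := bs.add bs'
  rw [hQI s hs hsC, hQI s' hs' hsC']
  change _ ≤ 100 * N (fun u => s u - s' u) * (N s + N s')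
  set d := N (fun u => s u - s' u) with hd
  have d0 : 0 ≤ d := N0 _
  have n0 := N0 s
  have n0' := N0 s'
  have iu : ∀ {f : ℝ → ℝ}, Bd f → IntervalIntegrable (fun u => u * f u) volume 0 1 := by
    intro f hf
    obtain ⟨hm, C, hC⟩ := hf
    refine ii_of_bdd (measurable_id.mul hm).aestronglyMeasurable (C := 1 * C) fun u hu => ?_
    rw [uIoc_of_le zero_le_one] at hu
    rw [Real.norm_eq_abs, abs_mul]
    have : |u| ≤ 1 := by rw [abs_of_pos hu.1]; exact hu.2
    exact mul_le_mul this (hC u) (abs_nonneg _) zero_le_one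
  have ip : ∀ {f : ℝ → ℝ}, Bd f →
      IntervalIntegrable (fun u => (24 * u - 16 * u ^ 2) * f u) volume 0 1 := by
    intro f hf
    obtain ⟨hm, C, hC⟩ := hf
    have hC0 : 0 ≤ C := (abs_nonneg _).trans (hC 0)
    refine ii_of_bdd (Measurable.mul (by fun_prop) hm).aestronglyMeasurable (C := 40 * C)
      fun u hu => ?_
    rw [uIoc_of_le zero_le_one] at hu
    rw [Real.norm_eq_abs, abs_mul]
    have : |24 * u - 16 * u ^ 2| ≤ 40 := by
      rw [abs_le]; constructor <;> nlinarith [hu.1, hu.2]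
    exact mul_le_mul this (hC u) (abs_nonneg _) (by norm_num)
  -- term 1
  have t1 : |(10 * (∫ u in (0:ℝ)..1, s u ^ 2) - ∫ u in (0:ℝ)..1, (24 * u - 16 * u ^ 2) * s u ^ 2) -
      (10 * (∫ u in (0:ℝ)..1, s' u ^ 2) - ∫ u in (0:ℝ)..1, (24 * u - 16 * u ^ 2) * s' u ^ 2)| ≤
      10 * d * (N s + N s') := by
    have e : (10 * (∫ u in (0:ℝ)..1, s u ^ 2) -
        ∫ u in (0:ℝ)..1, (24 * u - 16 * u ^ 2) * s u ^ 2) -
        (10 * (∫ u in (0:ℝ)..1, s' u ^ 2) - ∫ u in (0:ℝ)..1, (24 * u - 16 * u ^ 2) * s' u ^ 2) =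
        ∫ u in (0:ℝ)..1, ((10 - (24 * u - 16 * u ^ 2)) * (s u - s' u)) * (s u + s' u) := by
      rw [← intervalIntegral.integral_const_mul, ← intervalIntegral.integral_const_mul,
        ← intervalIntegral.integral_sub ((bs.sq.ii 0 1).const_mul _) (ip bs.sq),
        ← intervalIntegral.integral_sub ((bs'.sq.ii 0 1).const_mul _) (ip bs'.sq),
        ← intervalIntegral.integral_sub (((bs.sq.ii 0 1).const_mul _).sub (ip bs.sq))
          (((bs'.sq.ii 0 1).const_mul _).sub (ip bs'.sq))]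
      apply intervalIntegral.integral_congr
      intro u _
      ring
    rw [e]
    obtain ⟨hm, C, hC⟩ := bd
    have hC0 : 0 ≤ C := (abs_nonneg _).trans (hC 0)
    have hp : ∀ u ∈ Ι (0:ℝ) 1, |10 - (24 * u - 16 * u ^ 2)| ≤ 10 := by
      intro u hu
      rw [uIoc_of_le zero_le_one] at hu
      rw [abs_le]; constructor <;> nlinarith [hu.1, hu.2, sq_nonneg (u - 3 / 4)]
    have hmq : Measurable (fun u : ℝ => (10 - (24 * u - 16 * u ^ 2)) * (s u - s' u)) :=
      Measurable.mul (by fun_prop) hm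
    have hbq : ∀ u ∈ Ι (0:ℝ) 1, |(10 - (24 * u - 16 * u ^ 2)) * (s u - s' u)| ≤ 10 * C := by
      intro u hu
      rw [abs_mul]
      exact mul_le_mul (hp u hu) (hC u) (abs_nonneg _) (by norm_num)
    have i1 : IntervalIntegrable
        (fun u : ℝ => ((10 - (24 * u - 16 * u ^ 2)) * (s u - s' u)) ^ 2) volume 0 1 := by
      refine ii_of_bdd (hmq.pow_const 2).aestronglyMeasurable (C := (10 * C) ^ 2) fun u hu => ?_
      rw [Real.norm_eq_abs, abs_pow]
      exact pow_le_pow_left₀ (abs_nonneg _) (hbq u hu) 2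
    obtain ⟨hma, Ca, hCa⟩ := ba
    have i2 : IntervalIntegrable (fun u : ℝ =>
        ((10 - (24 * u - 16 * u ^ 2)) * (s u - s' u)) * (s u + s' u)) volume 0 1 := by
      refine ii_of_bdd (hmq.mul hma).aestronglyMeasurable (C := (10 * C) * Ca) fun u hu => ?_
      rw [Real.norm_eq_abs, abs_mul]
      exact mul_le_mul (hbq u hu) (hCa u) (abs_nonneg _) (by positivity)
    have h := cs zero_le_one i1 ((Bd.sq ⟨hma, Ca, hCa⟩).ii 0 1) i2
    have h2 : Real.sqrt (∫ u in (0:ℝ)..1, ((10 - (24 * u - 16 * u ^ 2)) * (s u - s' u)) ^ 2) ≤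
        10 * d := by
      have h3 : (∫ u in (0:ℝ)..1, ((10 - (24 * u - 16 * u ^ 2)) * (s u - s' u)) ^ 2) ≤
          ∫ u in (0:ℝ)..1, 100 * (s u - s' u) ^ 2 := by
        apply intervalIntegral.integral_mono_on_of_le_Ioo zero_le_one i1
          (((Bd.sq ⟨hm, C, hC⟩).ii 0 1).const_mul _)
        intro u hu
        have h4 := hp u (by rw [uIoc_of_le zero_le_one]; exact ⟨hu.1, hu.2.le⟩)
        have h5 : (10 - (24 * u - 16 * u ^ 2)) ^ 2 ≤ 100 := by
          rw [← sq_abs]; nlinarith [abs_nonneg (10 - (24 * u - 16 * u ^ 2))]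
        rw [mul_pow]
        exact mul_le_mul_of_nonneg_right h5 (sq_nonneg _)
      rw [intervalIntegral.integral_const_mul] at h3
      have h4 : d ^ 2 = ∫ u in (0:ℝ)..1, (s u - s' u) ^ 2 := Real.sq_sqrt (int_sq_nonneg _)
      rw [← h4] at h3
      calc _ ≤ Real.sqrt ((10 * d) ^ 2) := Real.sqrt_le_sqrt (by nlinarith)
        _ = 10 * d := Real.sqrt_sq (by positivity)
    refine h.trans ?_
    have h3 : Real.sqrt (∫ u in (0:ℝ)..1, (s u + s' u) ^ 2) ≤ N s + N s' := N_add bs bs'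
    exact mul_le_mul h2 h3 (Real.sqrt_nonneg _) (by positivity)
  -- integrals
  have ed : (∫ u in (0:ℝ)..1, s u) - ∫ u in (0:ℝ)..1, s' u = ∫ u in (0:ℝ)..1, (s u - s' u) :=
    (intervalIntegral.integral_sub (bs.ii 0 1) (bs'.ii 0 1)).symm
  have eud : (∫ u in (0:ℝ)..1, u * s u) - ∫ u in (0:ℝ)..1, u * s' u =
      ∫ u in (0:ℝ)..1, u * (s u - s' u) := by
    rw [← intervalIntegral.integral_sub (iu bs) (iu bs')]
    apply intervalIntegral.integral_congr
    intro u _
    ring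
  have a1 : |∫ u in (0:ℝ)..1, (s u - s' u)| ≤ d := abs_int_le bd
  have a2 : |∫ u in (0:ℝ)..1, u * (s u - s' u)| ≤ d := abs_int_u_le bd
  have b1 := abs_int_le bs
  have b1' := abs_int_le bs'
  have b2 := abs_int_u_le bs
  set P := ∫ u in (0:ℝ)..1, s u with hP
  set P' := ∫ u in (0:ℝ)..1, s' u with hP'
  set R := ∫ u in (0:ℝ)..1, u * s u with hR
  set R' := ∫ u in (0:ℝ)..1, u * s' u with hR'
  rw [← ed] at a1
  rw [← eud] at a2
  have t2 : |24 * P ^ 2 - 24 * P' ^ 2| ≤ 24 * d * (N s + N s') := by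
    have e : 24 * P ^ 2 - 24 * P' ^ 2 = 24 * ((P - P') * (P + P')) := by ring
    rw [e, abs_mul, abs_mul, abs_of_pos (by norm_num : (0:ℝ) < 24)]
    have := abs_add_le P P'
    have h1 : |P + P'| ≤ N s + N s' := by linarith
    have := mul_le_mul a1 h1 (abs_nonneg _) d0
    linarith
  have t3 : |16 * P * R - 16 * P' * R'| ≤ 16 * d * (N s + N s') := by
    have e : 16 * P * R - 16 * P' * R' = 16 * ((P - P') * R + P' * (R - R')) := by ring
    rw [e, abs_mul, abs_of_pos (by norm_num : (0:ℝ) < 16)]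
    have h1 := abs_add_le ((P - P') * R) (P' * (R - R'))
    rw [abs_mul, abs_mul] at h1
    have h2 := mul_le_mul a1 b2 (abs_nonneg _) d0
    have h3 := mul_le_mul b1' a2 (abs_nonneg _) n0'
    linarith
  have t4 : |8 * (∫ u in (0:ℝ)..1, u * s u * tl s u) - 8 * ∫ u in (0:ℝ)..1, u * s' u * tl s' u| ≤
      8 * d * (N s + N s') := by
    obtain ⟨j1, k1⟩ := tl_bil bd bs
    obtain ⟨j2, k2⟩ := tl_bil bs' bd
    have e : (∫ u in (0:ℝ)..1, u * s u * tl s u) - (∫ u in (0:ℝ)..1, u * s' u * tl s' u) =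
        (∫ u in (0:ℝ)..1, u * (s u - s' u) * tl s u) +
        ∫ u in (0:ℝ)..1, u * s' u * tl (fun u => s u - s' u) u := by
      rw [← intervalIntegral.integral_sub (tl_bil bs bs).1 (tl_bil bs' bs').1,
        ← intervalIntegral.integral_add j1 j2]
      apply intervalIntegral.integral_congr
      intro u _
      have e2 : tl (fun u => s u - s' u) u = tl s u - tl s' u := by
        unfold tl
        exact intervalIntegral.integral_sub (bs.ii u 1) (bs'.ii u 1)
      simp only [e2]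
      ring
    rw [← mul_sub, abs_mul, abs_of_pos (by norm_num : (0:ℝ) < 8), e]
    have h1 := abs_add_le (∫ u in (0:ℝ)..1, u * (s u - s' u) * tl s u)
      (∫ u in (0:ℝ)..1, u * s' u * tl (fun u => s u - s' u) u)
    linarith
  rw [abs_le] at t1 t2 t3 t4 ⊢
  have hdn : 0 ≤ d * (N s + N s') := by positivity
  constructor <;> nlinarith [t1.1, t1.2, t2.1, t2.2, t3.1, t3.2, t4.1, t4.2]

end Pool.Agent.Helper3.B4
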